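import Pool.Graph.R_pool_sql_team_8f841797.Results.MP_fe8c60_co.Unbounded

/-! Bend-numbers of cobipartite graphs by counting: a `k`-bend representation of a graph on `n`
vertices is described, as far as the adjacencies are concerned, by a few functions on a set with
`n (k + 1)` elements with values in a set with `2 n (k + 1)` elements. -/

set_option autoImplicit false

namespace Pool.Agent.KS6_17.BE

open Pool.Agent.Results.MP_fe8c60_co.Unbounded Finset

/-- The cobipartite graph of the relation `R`: two disjoint cliques `Fin p` and `Fin q`, and `a` in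
the first one is adjacent to `b` in the second one if and only if `R a b`. -/
def cobip {p q : ℕ} (R : Fin p → Fin q → Prop) : SimpleGraph (Fin p ⊕ Fin q) :=
  SimpleGraph.fromRel fun u v =>
    match u, v with
    | Sum.inl _, Sum.inl _ => True
    | Sum.inr _, Sum.inr _ => True
    | Sum.inl a, Sum.inr b => R a b
    | Sum.inr _, Sum.inl _ => False

lemma side {p q : ℕ} {R : Fin p → Fin q → Prop} {u v : Fin p ⊕ Fin q} (h : u ≠ v)
    (hn : ¬ (cobip R).Adj u v) : u.isLeft ≠ v.isLeft := by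
  intro e
  revert h hn e
  rcases u with a | a <;> rcases v with b | b <;>
    simp +contextual [cobip, SimpleGraph.fromRel_adj]

lemma no_indep {p q : ℕ} (R : Fin p → Fin q → Prop) (u v w : Fin p ⊕ Fin q) (h1 : u ≠ v)
    (h2 : v ≠ w) (h3 : u ≠ w) :
    (cobip R).Adj u v ∨ (cobip R).Adj v w ∨ (cobip R).Adj u w := by
  by_contra h
  push Not at h
  have a := side h1 h.1
  have b := side h2 h.2.1
  have c := side h3 h.2.2
  revert a b c
  cases u.isLeft <;> cases v.isLeft <;> cases w.isLeft <;> simp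

lemma claw' {V : Type} (G : SimpleGraph V)
    (hG : ∀ u v w : V, u ≠ v → v ≠ w → u ≠ w → G.Adj u v ∨ G.Adj v w ∨ G.Adj u w) :
    ClawFree G := by
  refine ⟨fun f => ?_⟩
  have k : ∀ i j : Fin 3, i ≠ j → f (Sum.inr i) ≠ f (Sum.inr j) ∧
      ¬ G.Adj (f (Sum.inr i)) (f (Sum.inr j)) := fun i j ne =>
    ⟨fun q => ne (Sum.inr_injective (f.injective q)), by simp [f.map_adj_iff]⟩
  rcases hG _ _ _ (k 0 1 (by decide)).1 (k 1 2 (by decide)).1 (k 0 2 (by decide)).1 with h | h | h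
  · exact (k 0 1 (by decide)).2 h
  · exact (k 1 2 (by decide)).2 h
  · exact (k 0 2 (by decide)).2 h

lemma rank {κ : Type} [Fintype κ] (v : κ → ℤ) :
    ∃ r : κ → Fin (Fintype.card κ), ∀ x y, r x ≤ r y ↔ v x ≤ v y := by
  classical
  have mono : ∀ x y, v x ≤ v y → #{z | v z < v x} ≤ #{z | v z < v y} := fun x y h =>
    card_le_card fun z hz => by
      simp only [mem_filter, mem_univ, true_and] at hz ⊢
      exact hz.trans_le h
  have smono : ∀ x y, v x < v y → #{z | v z < v x} < #{z | v z < v y} := fun x y h => by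
    refine card_lt_card ⟨fun z hz => ?_, fun c => ?_⟩
    · simp only [mem_filter, mem_univ, true_and] at hz ⊢
      exact hz.trans h
    · have := c (by simpa using h : x ∈ _)
      simp at this
  refine ⟨fun x => ⟨#{z | v z < v x}, ?_⟩, fun x y => ?_⟩
  · rw [← Finset.card_univ]
    refine card_lt_card ⟨subset_univ _, fun c => ?_⟩
    have := c (mem_univ x)
    simp at this
  · rw [Fin.mk_le_mk]
    exact ⟨fun h => not_lt.1 fun c => absurd (smono _ _ c) (not_lt.2 h), mono x y⟩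

lemma overlap (s t : Seg) : (∃ e, mem e s ∧ mem e t) ↔ s.1 = t.1 ∧ s.2.1 ≤ t.2.2 ∧
    t.2.1 ≤ s.2.2 ∧ s.2.1 ≤ s.2.2 ∧ t.2.1 ≤ t.2.2 := by
  constructor
  · rintro ⟨e, ⟨u, a1, a2, rfl⟩, w, b1, b2, q⟩
    obtain ⟨q1, rfl⟩ := edge_inj q
    exact ⟨q1, by omega, by omega, by omega, by omega⟩
  · rintro ⟨q, h1, h2, h3, h4⟩
    exact ⟨_, ⟨max s.2.1 t.2.1, by omega, by omega, rfl⟩, max s.2.1 t.2.1, by omega, by omega,
      by rw [q]⟩

def lz (l : Ln) : ℤ := 2 * l.2 + if l.1 then 1 else 0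

lemma lz_inj {l l' : Ln} (h : lz l = lz l') : l = l' := by
  obtain ⟨b, c⟩ := l
  obtain ⟨b', c'⟩ := l'
  cases b <;> cases b' <;> simp [lz] at h ⊢ <;> omega

/-- the segments of the paths -/
abbrev Ix (p q k : ℕ) : Type := (Fin p ⊕ Fin q) × Fin (k + 1)

/-- the codes -/
abbrev Code (p q k : ℕ) : Type :=
  (Ix p q k → Fin (Fintype.card (Ix p q k))) ×
    (Ix p q k ⊕ Ix p q k → Fin (Fintype.card (Ix p q k ⊕ Ix p q k)))

def dec {p q k : ℕ} (c : Code p q k) : Fin p → Fin q → Prop := fun a b =>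
  ∃ (i j : Fin (k + 1)), c.1 (Sum.inl a, i) = c.1 (Sum.inr b, j) ∧
    c.2 (Sum.inl (Sum.inl a, i)) ≤ c.2 (Sum.inr (Sum.inr b, j)) ∧
    c.2 (Sum.inl (Sum.inr b, j)) ≤ c.2 (Sum.inr (Sum.inl a, i)) ∧
    c.2 (Sum.inl (Sum.inl a, i)) ≤ c.2 (Sum.inr (Sum.inl a, i)) ∧
    c.2 (Sum.inl (Sum.inr b, j)) ≤ c.2 (Sum.inr (Sum.inr b, j))

lemma code {p q k : ℕ} {R : Fin p → Fin q → Prop} (h : HasEPG (cobip R) k) :
    ∃ c : Code p q k, dec c = R := by
  obtain ⟨P, h1, h2⟩ := h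
  choose f hf using fun v => segs k (P v) (h1 v)
  obtain ⟨r, hr⟩ := rank fun x : Ix p q k => lz (f x.1 x.2).1
  obtain ⟨s, hs⟩ := rank fun x : Ix p q k ⊕ Ix p q k =>
    Sum.elim (fun y => (f y.1 y.2).2.1) (fun y => (f y.1 y.2).2.2) x
  have hr' : ∀ x y, r x = r y ↔ (f x.1 x.2).1 = (f y.1 y.2).1 := fun x y => by
    refine ⟨fun e => lz_inj (le_antisymm ((hr x y).1 e.le) ((hr y x).1 e.ge)), fun e => ?_⟩
    exact le_antisymm ((hr x y).2 (by rw [e])) ((hr y x).2 (by rw [e]))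
  refine ⟨(r, s), ?_⟩
  funext a b
  have := h2 (Sum.inl a) (Sum.inr b) (by simp)
  simp only [cobip, SimpleGraph.fromRel_adj, ne_eq, reduceCtorEq, not_false_eq_true, or_false,
    true_and, hf] at this
  rw [eq_iff_iff, this]
  have e1 : (∃ e, (∃ j, mem e (f (Sum.inl a) j)) ∧ ∃ j, mem e (f (Sum.inr b) j)) ↔
      ∃ i j, ∃ e, mem e (f (Sum.inl a) i) ∧ mem e (f (Sum.inr b) j) :=
    ⟨fun ⟨e, ⟨i, x⟩, j, y⟩ => ⟨i, j, e, x, y⟩, fun ⟨i, j, e, x, y⟩ => ⟨e, ⟨i, x⟩, j, y⟩⟩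
  rw [e1]
  simp only [dec, overlap, hr', hs, Sum.elim_inl, Sum.elim_inr]

lemma count (p q k : ℕ) : {R : Fin p → Fin q → Prop | HasEPG (cobip R) k}.ncard ≤
    (2 * ((p + q) * (k + 1))) ^ (3 * ((p + q) * (k + 1))) := by
  have h1 : {R : Fin p → Fin q → Prop | HasEPG (cobip R) k} ⊆
      Set.range (dec : Code p q k → _) := fun R hR => code hR
  refine (Set.ncard_le_ncard h1 (Set.toFinite _)).trans ?_
  rw [← Set.image_univ]
  refine (Set.ncard_image_le (Set.toFinite _)).trans ?_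
  rw [Set.ncard_univ, Nat.card_eq_fintype_card]
  simp only [Fintype.card_prod, Fintype.card_pi, Fintype.card_fin, Fintype.card_sum, prod_const,
    Finset.card_univ]
  generalize (p + q) * (k + 1) = N
  calc N ^ N * (N + N) ^ (N + N) ≤ (2 * N) ^ N * (2 * N) ^ (N + N) :=
        Nat.mul_le_mul (Nat.pow_le_pow_left (by omega) _) (by rw [two_mul])
    _ = (2 * N) ^ (3 * N) := by rw [← pow_add]; congr 1; ring

lemma few {p q k : ℕ} (hp : 1 ≤ p) (hq : 1 ≤ q)
    (h : 18 * ((p : ℝ) + q) * (k + 1) * Real.logb 2 (p + q) ≤ p * q) :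
    ({R : Fin p → Fin q → Prop | HasEPG (cobip R) k}.ncard : ℝ) ^ 2 ≤ 2 ^ (p * q) := by
  obtain ⟨n, hn⟩ : ∃ n : ℝ, n = p + q := ⟨_, rfl⟩
  rw [← hn] at h
  have hp' : (1 : ℝ) ≤ p := by exact_mod_cast hp
  have hq' : (1 : ℝ) ≤ q := by exact_mod_cast hq
  have n2 : 2 ≤ n := by rw [hn]; linarith
  have l1 : 1 ≤ Real.logb 2 n := by
    rw [Real.le_logb_iff_rpow_le (by norm_num) (by linarith)]
    simpa using n2
  have pq : (p : ℝ) * q ≤ n ^ 2 := by rw [hn]; nlinarith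
  have k0 : (0 : ℝ) < k + 1 := by positivity
  -- `k + 1 ≤ n`
  have kn : (k : ℝ) + 1 ≤ n := by
    by_contra c
    push Not at c
    have : n * n < 18 * n * (k + 1) * Real.logb 2 n := by
      have : n * n < n * (k + 1) := by nlinarith
      have h3 : n * (k + 1) ≤ 18 * n * (k + 1) * Real.logb 2 n := by
        have : 0 < n * (k + 1) := by positivity
        nlinarith
      linarith
    nlinarith
  obtain ⟨N, hN⟩ : ∃ N : ℕ, N = (p + q) * (k + 1) := ⟨_, rfl⟩
  have hN' : (N : ℝ) = n * (k + 1) := by rw [hN, hn]; push_cast; ring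
  have c1 : ({R : Fin p → Fin q → Prop | HasEPG (cobip R) k}.ncard : ℝ) ≤
      (2 * (N : ℝ)) ^ (3 * N) := by
    have := count p q k
    rw [← hN] at this
    exact_mod_cast this
  have c2 : (2 * (N : ℝ)) ≤ n ^ 3 := by
    rw [hN']
    have : n * (k + 1) ≤ n * n := by nlinarith
    nlinarith [mul_pos (show 0 < n by linarith) (show 0 < n by linarith)]
  have np : (0 : ℝ) < n := by linarith
  have c3 : n = (2 : ℝ) ^ (Real.logb 2 n) := (Real.rpow_logb (by norm_num) (by norm_num) np).symm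
  calc ({R : Fin p → Fin q → Prop | HasEPG (cobip R) k}.ncard : ℝ) ^ 2
      ≤ ((2 * (N : ℝ)) ^ (3 * N)) ^ 2 := pow_le_pow_left₀ (by positivity) c1 2
    _ ≤ ((n ^ 3) ^ (3 * N)) ^ 2 :=
        pow_le_pow_left₀ (by positivity) (pow_le_pow_left₀ (by positivity) c2 _) 2
    _ = n ^ (18 * N) := by rw [← pow_mul, ← pow_mul]; congr 1; ring
    _ = (2 : ℝ) ^ (Real.logb 2 n * (18 * N : ℕ)) := by
        rw [Real.rpow_mul (by norm_num), ← c3, Real.rpow_natCast]
    _ ≤ (2 : ℝ) ^ ((p * q : ℕ) : ℝ) := by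
        refine Real.rpow_le_rpow_of_exponent_le (by norm_num) ?_
        push_cast
        rw [hN']
        linarith
    _ = 2 ^ (p * q) := Real.rpow_natCast _ _

lemma mono {V : Type} {G : SimpleGraph V} {k l : ℕ} (h : HasEPG G k) (hkl : k ≤ l) :
    HasEPG G l := by
  obtain ⟨P, h1, h2⟩ := h
  exact ⟨P, fun v => (h1 v).trans hkl, h2⟩

lemma exists_bad {n k : ℕ} (hn : 2 ≤ n) (h : 100 * ((k : ℝ) + 1) * Real.logb 2 n ≤ n) :
    ∃ R : Fin (n / 2) → Fin (n - n / 2) → Prop, ¬ HasEPG (cobip R) k := by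
  obtain ⟨p, hp⟩ : ∃ p, p = n / 2 := ⟨_, rfl⟩
  obtain ⟨q, hq⟩ : ∃ q, q = n - n / 2 := ⟨_, rfl⟩
  have p1 : 1 ≤ p := by omega
  have q1 : 1 ≤ q := by omega
  rw [← hq, ← hp]
  have e : (n : ℝ) = p + q := by
    have : n = p + q := by omega
    exact_mod_cast this
  have n2 : (2 : ℝ) ≤ n := by exact_mod_cast hn
  have pq : (n : ℝ) ^ 2 - 1 ≤ 4 * (p * q) := by
    have : q = p ∨ q = p + 1 := by omega
    rcases this with h | h <;> rw [e, h] <;> push_cast <;> nlinarith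
  have h2 := few (k := k) p1 q1 (by rw [← e]; nlinarith)
  by_contra c
  push Not at c
  have : {R : Fin p → Fin q → Prop | HasEPG (cobip R) k} = Set.univ :=
    Set.eq_univ_of_forall c
  rw [this, Set.ncard_univ] at h2
  have hc : Nat.card (Fin p → Fin q → Prop) = 2 ^ (p * q) := by
    classical
    rw [Nat.card_eq_fintype_card]
    simp [← pow_mul, mul_comm]
  rw [hc] at h2
  push_cast at h2
  have : (1 : ℝ) < 2 ^ (p * q) := one_lt_pow₀ (by norm_num) (by positivity)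
  nlinarith

theorem large {n : ℕ} (hn : 2 ≤ n) : ∃ R : Fin (n / 2) → Fin (n - n / 2) → Prop,
    ∀ k, HasEPG (cobip R) k → (n : ℝ) / (100 * Real.logb 2 n) < k + 1 := by
  have n2 : (2 : ℝ) ≤ n := by exact_mod_cast hn
  have l1 : 1 ≤ Real.logb 2 n := by
    rw [Real.le_logb_iff_rpow_le (by norm_num) (by linarith)]
    simpa using n2
  obtain ⟨x, hx⟩ : ∃ x : ℝ, x = (n : ℝ) / (100 * Real.logb 2 n) := ⟨_, rfl⟩
  have x0 : 0 ≤ x := by rw [hx]; positivity
  rw [← hx]
  rcases Nat.eq_zero_or_pos ⌊x⌋₊ with h | h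
  · refine ⟨fun _ _ => True, fun k _ => ?_⟩
    have := Nat.lt_floor_add_one x
    rw [h] at this
    have k0 : (0 : ℝ) ≤ k := by positivity
    push_cast at this
    linarith
  · obtain ⟨K, hK⟩ : ∃ K, ⌊x⌋₊ = K + 1 := ⟨⌊x⌋₊ - 1, by omega⟩
    have h3 : ((K : ℝ) + 1) ≤ x := by
      have := Nat.floor_le x0
      rw [hK] at this
      exact_mod_cast this
    obtain ⟨R, hR⟩ := exists_bad (k := K) hn (by
      rw [hx, le_div_iff₀ (by positivity)] at h3
      linarith)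
    refine ⟨R, fun k hk => ?_⟩
    have : K < k := by
      by_contra c
      exact hR (mono hk (not_lt.1 c))
    have h4 := Nat.lt_floor_add_one x
    rw [hK] at h4
    push_cast at h4
    have : (K : ℝ) + 1 ≤ k := by exact_mod_cast this
    linarith

end Pool.Agent.KS6_17.BE
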